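import Pool.Agent.Helper93.TH3.StD

/-!
# Project TH3, module LEO: solutions of the relations with given leading forms, odd degree
-/

set_option autoImplicit false

namespace Pool.Agent.Helper41.TH3

open Pool.Agent.Helper14.CV (Homog EqC act Tl StFar StFex)
open Pool.Agent.Helper28.WK (Tw evw)
open Pool.Agent.Helper78.W3 (tr Fn3 Tm opL op3 mulL negL Wd3 dX dY oD oN Lw sS M5 bb3 S3PlA S3Trm S3Low0 S3Nf S3Exp S3Lw1 S3Bb)
open Pool.Agent.Helper93.TLH (HTy SymH SHHk SHHkS LBH)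
open Pool.Agent.Helper93.TLE (DDE)
open Pool.Agent.Helper93.TH3

private theorem qT_eq {q q' : ℕ} (f0 f1 f2 b b' : Fn3 q q') : qT f0 f1 f2 b b' =
    -f1 + op3 1 1 0 1 f2 - op3 8 (-1) 2 (-2) (f0 - f1 - (b - op3 4 (-1) 2 (-4) b)) +
      op3 10 1 2 2 (f0 - f2 - (b' - op3 4 1 (-2) (-4) b')) := rfl

private theorem three0 : (3 : ZMod 3) = 0 := by decide

private theorem three {M : Type*} [AddCommGroup M] [Module (ZMod 3) M] (x : M) :
    (3 : ZMod 3) • x = 0 := by rw [three0, zero_smul]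

theorem hLeo (_ht : S3Trm) (hl : S3Low0) (h1 : S3Lw1) (hw : TLwt) (hb : S3Bb)
    (hs : TSol) (hu : TSur) : TLeo := by
  intro r s al be hal hbe hod
  obtain ⟨-, -, -, -, wmono, -, ldx, ldy, -⟩ := hl r s
  obtain ⟨b1, -⟩ := hb r s
  obtain ⟨-, -, -, -, lN, -⟩ := h1 r s
  obtain ⟨hNN, -, -, we, wo, wA, wS, wS', wG, wG'⟩ := hw r s
  have hal' : (al : ℤ) < 3 ^ r := by exact_mod_cast hal
  have hbe' : (be : ℤ) < 3 ^ s := by exact_mod_cast hbe
  obtain ⟨d, hd⟩ : ∃ d : ℤ, d = (al : ℤ) + be := ⟨_, rfl⟩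
  have hdo : Odd d := by
    obtain ⟨m, hm⟩ := hod
    exact ⟨(m : ℤ), by rw [hd]; exact_mod_cast hm⟩
  have hev : Even (d - 1) := hdo.sub_odd odd_one
  have hodd : Odd (d - 2) := hdo.sub_even even_two
  have m12 : ∀ {F : Fn3 (3 ^ r) (3 ^ s)} {k : ℤ}, F ∈ Wd3 (k - 1 - 1) → F ∈ Wd3 (k - 2) := by
    intro F k hF
    exact wmono _ _ (by linarith : k - 1 - 1 ≤ k - 2) hF
  -- operators of the form `oN * L`, `L` the identity modulo lower degree
  have key : ∀ O L : Module.End (ZMod 3) (Fn3 (3 ^ r) (3 ^ s)),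
      (∀ (k : ℤ) (F : Fn3 (3 ^ r) (3 ^ s)), F ∈ Wd3 k → L F - F ∈ Wd3 (k - 1)) →
      Lw (O - oN * L) 2 → (∀ (k : ℤ) (F : Fn3 (3 ^ r) (3 ^ s)), F ∈ Wd3 k → O F ∈ Wd3 k) ∧
        (∀ (k : ℤ) (F : Fn3 (3 ^ r) (3 ^ s)), Even k → F ∈ Wd3 k → O F - F ∈ Wd3 (k - 1)) ∧
        (∀ (k : ℤ) (F : Fn3 (3 ^ r) (3 ^ s)), Odd k → oN F = -F → F ∈ Wd3 k →
          O F + F - (L F - F) ∈ Wd3 (k - 2)) := by
    intro O L hL hO
    have e : ∀ F : Fn3 (3 ^ r) (3 ^ s), O F =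
        (O - oN * L : Module.End (ZMod 3) (Fn3 (3 ^ r) (3 ^ s))) F + oN F + oN (L F - F) := by
      intro F
      simp only [LinearMap.sub_apply, Module.End.mul_apply, map_sub]
      abel
    have g0 : ∀ (k : ℤ) (F : Fn3 (3 ^ r) (3 ^ s)), F ∈ Wd3 k →
        (O - oN * L : Module.End (ZMod 3) (Fn3 (3 ^ r) (3 ^ s))) F ∈ Wd3 (k - 2) :=
      fun k F hF => hO k F hF
    have g1 : ∀ (k : ℤ) (F : Fn3 (3 ^ r) (3 ^ s)), F ∈ Wd3 k →
        (O - oN * L : Module.End (ZMod 3) (Fn3 (3 ^ r) (3 ^ s))) F ∈ Wd3 (k - 1) :=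
      fun k F hF => wmono _ _ (by linarith : k - 2 ≤ k - 1) (g0 k F hF)
    have g2 : ∀ (k : ℤ) (F : Fn3 (3 ^ r) (3 ^ s)), F ∈ Wd3 k → oN (L F - F) ∈ Wd3 (k - 1) := by
      intro k F hF
      have h := lN _ _ (hL k F hF)
      rwa [sub_zero] at h
    have g3 : ∀ (k : ℤ) (F : Fn3 (3 ^ r) (3 ^ s)), F ∈ Wd3 k → oN F ∈ Wd3 k := by
      intro k F hF
      have h := lN _ _ hF
      rwa [sub_zero] at h
    refine ⟨fun k F hF => ?_, fun k F hk hF => ?_, fun k F hk hN hF => ?_⟩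
    · rw [e]
      exact Submodule.add_mem _ (Submodule.add_mem _
        (wmono _ _ (by linarith : k - 1 ≤ k) (g1 k F hF)) (g3 k F hF))
        (wmono _ _ (by linarith : k - 1 ≤ k) (g2 k F hF))
    · have e' : O F - F = (O - oN * L : Module.End (ZMod 3) (Fn3 (3 ^ r) (3 ^ s))) F +
          (oN F - F) + oN (L F - F) := by
        rw [e F]
        abel
      rw [e']
      exact Submodule.add_mem _ (Submodule.add_mem _ (g1 k F hF) (we k F hF hk)) (g2 k F hF)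
    · have e' : O F + F - (L F - F) =
          (O - oN * L : Module.End (ZMod 3) (Fn3 (3 ^ r) (3 ^ s))) F +
            (oN (L F - F) - (L F - F)) := by
        rw [e F, hN]
        abel
      rw [e']
      exact Submodule.add_mem _ (g0 k F hF)
        (m12 (we (k - 1) _ (hL k F hF) (hk.sub_odd odd_one)))
  obtain ⟨kS, -, kS3⟩ := key _ _ (fun k F hF => by
    have e : (1 - dX + dY : Module.End (ZMod 3) (Fn3 (3 ^ r) (3 ^ s))) F - F = dY F - dX F := by
      simp only [LinearMap.add_apply, LinearMap.sub_apply, Module.End.one_apply]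
      abel
    rw [e]
    exact Submodule.sub_mem _ (ldy k F hF) (ldx k F hF)) wS
  obtain ⟨kS', -, kS3'⟩ := key _ _ (fun k F hF => by
    have e : (1 + dX - dY : Module.End (ZMod 3) (Fn3 (3 ^ r) (3 ^ s))) F - F = dX F - dY F := by
      simp only [LinearMap.add_apply, LinearMap.sub_apply, Module.End.one_apply]
      abel
    rw [e]
    exact Submodule.sub_mem _ (ldx k F hF) (ldy k F hF)) wS'
  obtain ⟨kG1, kG2, kG3⟩ := key _ _ (fun k F hF => by
    have e : (1 + dX - dY : Module.End (ZMod 3) (Fn3 (3 ^ r) (3 ^ s))) F - F = dX F - dY F := by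
      simp only [LinearMap.add_apply, LinearMap.sub_apply, Module.End.one_apply]
      abel
    rw [e]
    exact Submodule.sub_mem _ (ldx k F hF) (ldy k F hF)) wG
  obtain ⟨kH1, kH2, kH3⟩ := key _ _ (fun k F hF => by
    have e : (1 + dX + dY : Module.End (ZMod 3) (Fn3 (3 ^ r) (3 ^ s))) F - F = dX F + dY F := by
      simp only [LinearMap.add_apply, Module.End.one_apply]
      abel
    rw [e]
    exact Submodule.add_mem _ (ldx k F hF) (ldy k F hF)) wG'
  obtain ⟨P, hP⟩ : ∃ P : Fn3 (3 ^ r) (3 ^ s), P = bb3 al be := ⟨_, rfl⟩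
  have hPW : P ∈ Wd3 d := by
    rw [hP, hd]
    exact b1 al be hal hbe
  have hNP : oN P + P ∈ Wd3 (d - 1) := wo d P hPW hdo
  obtain ⟨w, hwd⟩ : ∃ w : Fn3 (3 ^ r) (3 ^ s), w = oN P - P := ⟨_, rfl⟩
  have hwP : w - P ∈ Wd3 (d - 1) := by
    have e : w - P = (oN P + P) - (3 : ZMod 3) • P := by
      rw [hwd]
      module
    rw [e, three, sub_zero]
    exact hNP
  have hwW : w ∈ Wd3 d := by
    have e : w = (w - P) + P := by abel
    rw [e]
    exact Submodule.add_mem _ (wmono _ _ (by linarith : d - 1 ≤ d) hwP) hPW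
  have hNw : oN w = -w := by
    have e : oN (oN P) = P := by
      have h := LinearMap.congr_fun hNN P
      rwa [Module.End.mul_apply, Module.End.one_apply] at h
    rw [hwd, map_sub, e]
    abel
  -- the operators
  obtain ⟨S, hS⟩ : ∃ S : Module.End (ZMod 3) (Fn3 (3 ^ r) (3 ^ s)), S = op3 4 (-1) 2 (-4) :=
    ⟨_, rfl⟩
  obtain ⟨S', hS'⟩ : ∃ S' : Module.End (ZMod 3) (Fn3 (3 ^ r) (3 ^ s)), S' = op3 4 1 (-2) (-4) :=
    ⟨_, rfl⟩
  obtain ⟨γ, hγ⟩ : ∃ γ : Module.End (ZMod 3) (Fn3 (3 ^ r) (3 ^ s)), γ = op3 8 (-1) 2 (-2) :=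
    ⟨_, rfl⟩
  obtain ⟨γ', hγ'⟩ : ∃ γ' : Module.End (ZMod 3) (Fn3 (3 ^ r) (3 ^ s)), γ' = op3 10 1 2 2 :=
    ⟨_, rfl⟩
  obtain ⟨A, hA⟩ : ∃ A : Module.End (ZMod 3) (Fn3 (3 ^ r) (3 ^ s)), A = op3 1 1 0 1 :=
    ⟨_, rfl⟩
  rw [← hS] at kS kS3
  rw [← hS'] at kS' kS3'
  rw [← hγ] at kG1 kG2 kG3
  rw [← hγ'] at kH1 kH2 kH3
  rw [← hA] at wA
  have mX : dX w ∈ Wd3 (d - 1) := ldx d w hwW
  have mY : dY w ∈ Wd3 (d - 1) := ldy d w hwW
  have t1 : S w + w + dX w - dY w ∈ Wd3 (d - 2) := by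
    have h := kS3 d w hdo hNw hwW
    have e : S w + w - ((1 - dX + dY : Module.End (ZMod 3) (Fn3 (3 ^ r) (3 ^ s))) w - w) =
        S w + w + dX w - dY w := by
      simp only [LinearMap.add_apply, LinearMap.sub_apply, Module.End.one_apply]
      abel
    rwa [e] at h
  have t2 : S' w + w - dX w + dY w ∈ Wd3 (d - 2) := by
    have h := kS3' d w hdo hNw hwW
    have e : S' w + w - ((1 + dX - dY : Module.End (ZMod 3) (Fn3 (3 ^ r) (3 ^ s))) w - w) =
        S' w + w - dX w + dY w := by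
      simp only [LinearMap.add_apply, LinearMap.sub_apply, Module.End.one_apply]
      abel
    rwa [e] at h
  have t3 : γ w + w - dX w + dY w ∈ Wd3 (d - 2) := by
    have h := kG3 d w hdo hNw hwW
    have e : γ w + w - ((1 + dX - dY : Module.End (ZMod 3) (Fn3 (3 ^ r) (3 ^ s))) w - w) =
        γ w + w - dX w + dY w := by
      simp only [LinearMap.add_apply, LinearMap.sub_apply, Module.End.one_apply]
      abel
    rwa [e] at h
  have t4 : γ' w + w - dX w - dY w ∈ Wd3 (d - 2) := by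
    have h := kH3 d w hdo hNw hwW
    have e : γ' w + w - ((1 + dX + dY : Module.End (ZMod 3) (Fn3 (3 ^ r) (3 ^ s))) w - w) =
        γ' w + w - dX w - dY w := by
      simp only [LinearMap.add_apply, Module.End.one_apply]
      abel
    rwa [e] at h
  have t5 : A w - w - dX w ∈ Wd3 (d - 2) := by
    have h := wA d w hwW
    simpa only [LinearMap.sub_apply, Module.End.one_apply] using h
  have u1 : γ (dX w) - dX w ∈ Wd3 (d - 2) := m12 (kG2 _ _ hev mX)
  have u2 : γ (dY w) - dY w ∈ Wd3 (d - 2) := m12 (kG2 _ _ hev mY)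
  have u3 : γ' (dX w) - dX w ∈ Wd3 (d - 2) := m12 (kH2 _ _ hev mX)
  have u4 : γ' (dY w) - dY w ∈ Wd3 (d - 2) := m12 (kH2 _ _ hev mY)
  have v1 := kG1 _ _ t1
  have v2 := kH1 _ _ t2
  -- the defect of the first approximation
  obtain ⟨E, hE⟩ : ∃ E : Fn3 (3 ^ r) (3 ^ s), E = qT 0 (-w) w w (-w) := ⟨_, rfl⟩
  have hEW : E ∈ Wd3 (d - 2) := by
    have e : E = (A w - w - dX w) - γ (S w + w + dX w - dY w) - γ' (S' w + w - dX w + dY w) +
        (γ w + w - dX w + dY w) + (γ (dX w) - dX w) - (γ (dY w) - dY w) +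
        (γ' w + w - dX w - dY w) - (γ' (dX w) - dX w) + (γ' (dY w) - dY w) +
        (3 : ZMod 3) • dX w := by
      rw [hE, qT_eq, ← hS, ← hS', ← hγ, ← hγ', ← hA]
      simp only [map_sub, map_add, map_neg, map_zero]
      module
    rw [e, three, add_zero]
    exact Submodule.add_mem _ (Submodule.sub_mem _ (Submodule.add_mem _ (Submodule.sub_mem _
      (Submodule.add_mem _ (Submodule.add_mem _ (Submodule.sub_mem _ (Submodule.sub_mem _ t5 v1) v2)
      t3) u1) u2) t4) u3) u4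
  obtain ⟨f0, f1, b, -, -, -, hf, hq⟩ := hu r s (d - 2) E (by linarith) hEW
  obtain ⟨hf0, hf1, hfb⟩ := hf hodd
  have hz : qT (-f0) (-w - f1) w (w - b) (-w) = (0 : Fn3 (3 ^ r) (3 ^ s)) := by
    have e : qT (-f0) (-w - f1) w (w - b) (-w) = E - qT f0 f1 0 b 0 := by
      rw [hE, qT_eq, qT_eq, qT_eq]
      simp only [map_zero, sub_zero, map_sub, map_neg]
      abel
    rw [e, hq, sub_self]
  have hm : ∀ {F : Fn3 (3 ^ r) (3 ^ s)}, F ∈ Wd3 (d - 2) → F ∈ Wd3 d :=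
    fun hF => wmono _ _ (by linarith : d - 2 ≤ d) hF
  have hm1 : ∀ {F : Fn3 (3 ^ r) (3 ^ s)}, F ∈ Wd3 (d - 2) → F ∈ Wd3 (d - 1) :=
    fun hF => wmono _ _ (by linarith : d - 2 ≤ d - 1) hF
  have m0 : -f0 ∈ Wd3 d := Submodule.neg_mem _ (hm hf0)
  have m1 : -w - f1 ∈ Wd3 d := Submodule.sub_mem _ (Submodule.neg_mem _ hwW) (hm hf1)
  refine ⟨solT (-f0) (-w - f1) w (w - b) (-w),
    hs (ZMod 3) _ r s _ _ _ _ _ fun x y => congrFun (congrFun hz x) y, ?_, ?_⟩
  · rw [← hd]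
    intro f
    fin_cases f
    · exact m0
    · exact m1
    · exact hwW
    · change -f0 - (-w - f1) - ((w - b) - op3 4 (-1) 2 (-4) (w - b)) ∈ Wd3 d
      rw [← hS]
      have mb : w - b ∈ Wd3 d := Submodule.sub_mem _ hwW (hm hfb)
      exact Submodule.sub_mem _ (Submodule.sub_mem _ m0 m1)
        (Submodule.sub_mem _ mb (kS d _ mb))
    · change -f0 - w - (-w - op3 4 1 (-2) (-4) (-w)) ∈ Wd3 d
      rw [← hS']
      have mb : -w ∈ Wd3 d := Submodule.neg_mem _ hwW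
      exact Submodule.sub_mem _ (Submodule.sub_mem _ m0 hwW)
        (Submodule.sub_mem _ mb (kS' d _ mb))
  · change -w - f1 - w - bb3 al be ∈ Wd3 ((al : ℤ) + be - 1)
    rw [← hP, ← hd]
    have e : -w - f1 - w - P = (w - P) - f1 - (3 : ZMod 3) • w := by module
    rw [e, three, sub_zero]
    exact Submodule.sub_mem _ hwP (hm1 hf1)

end Pool.Agent.Helper41.TH3
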